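import Pool.Agent.MWK.Stmts

/-!
# Row LIM of block MWK (helper49)
-/

namespace Pool.Agent.MWK.H49

open Pool.Agent.Helper14_MV Pool.Agent.Helper2_MV

/-- row LIM -/
theorem lim (hT : TruStmt) (hS : SrtStmt) (hDag : DagStmt) (hC : CutStmt) (hTw : TwcStmt)
    (hCl : CloStmt) (hSt : StbStmt) : LimStmt := by
  intro θ hθ u v hA
  obtain ⟨u', hu, hu2, huA⟩ := hT θ hθ u
  obtain ⟨v', hv, hv2, hvA⟩ := hT θ hθ v
  have hFv : ∀ m y x i, FF m v' y x i → FF m v y x i := by
    intro m y x i h
    exact ((hDag m v v' (hvA.weaken (fun _ _ _ _ => trivial))) m (by omega) y).2 h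
  have key : ∀ m, Ag (FF m v') u' v' := fun m =>
    ((huA.symm.weaken (fun _ _ _ _ => trivial)).trans ((hA m).weaken (hFv m))).trans
      (hvA.weaken (fun _ _ _ _ => trivial))
  obtain ⟨m, hm⟩ := hSt v'
  have hcount : ∀ x, u'.count x = v'.count x := by
    intro x
    have h0 := (key m).1 x 0 (by omega)
    have h1 := (key m).1 x 1 (by omega)
    have h2 := hu2 x
    have h3 := hv2 x
    omega
  have h3 : RR θ u' v' := by
    refine hS θ (FF m v') v' hv2 ?_ u' hcount (key m)
    intro P a b Q hab hPa hPb hW h1 h2
    have hdep := hDag m (P ++ a :: b :: Q) v' hW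
    obtain ⟨q, R, hQ, hq, hR⟩ := hC (fun z => Dp m (P ++ a :: b :: Q) z) (P ++ [a, b]) Q
    have hWe : P ++ a :: b :: Q = P ++ [a, b] ++ q ++ R := by
      rw [hQ]
      simp
    have hcnt := hTw (P ++ a :: b :: Q) (P ++ [a, b]) q R m hWe hR
    have ha : Dp m (P ++ a :: b :: Q) a → a ∈ P := by
      intro h
      by_contra hn
      exact h1 ⟨hn, ((hdep m (by omega) a).1 h : Dp m v' a)⟩
    have hb : Dp m (P ++ a :: b :: Q) b → b ∈ P := by
      intro h
      by_contra hn
      exact h2 ⟨hn, ((hdep m (by omega) b).1 h : Dp m v' b)⟩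
    have hZ : ∀ z ∈ a :: b :: q, 2 ≤ (P ++ (a :: b :: q)).count z := by
      intro z hz
      have hzA : z ∈ P ++ [a, b] ++ q := by
        rw [List.append_assoc]
        exact List.mem_append_right _ (by simpa using hz)
      have he : (P ++ (a :: b :: q)).count z = (P ++ [a, b] ++ q).count z := by simp
      rw [he]
      by_cases hD : Dp m (P ++ a :: b :: Q) z
      · rcases List.mem_cons.1 hz with rfl | hz2
        · have h4 := List.count_pos_iff.2 (ha hD)
          have h5 : 0 < ([z, b] : List ℕ).count z := List.count_pos_iff.2 (by simp)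
          rw [List.count_append, List.count_append]
          omega
        · rcases List.mem_cons.1 hz2 with rfl | hz3
          · have h4 := List.count_pos_iff.2 (hb hD)
            have h5 : 0 < ([a, z] : List ℕ).count z := List.count_pos_iff.2 (by simp)
            rw [List.count_append, List.count_append]
            omega
          · have h4 : z ∈ P ++ [a, b] := by
              by_contra hn
              exact hq z hz3 hn hD
            have h5 := List.count_pos_iff.2 h4
            have h6 := List.count_pos_iff.2 hz3
            rw [List.count_append]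
            omega
      · refine hcnt z hzA ?_
        intro h
        exact hD ((hdep m (by omega) z).2 (hm z ((hdep (m + 1) le_rfl z).1 h)))
    have hZ' : ∀ z ∈ b :: a :: q, 2 ≤ (P ++ (b :: a :: q)).count z := by
      intro z hz
      have he : (P ++ (b :: a :: q)).count z = (P ++ (a :: b :: q)).count z := by
        apply List.Perm.count_eq
        exact (List.Perm.swap a b q).append_left P
      rw [he]
      exact hZ z ((List.Perm.swap a b q).mem_iff.1 hz)
    have h4 := hCl θ hθ P (a :: b :: q) (b :: a :: q) R
      (fun l => (List.Perm.swap b a q).mem_iff) hZ hZ'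
    have e1 : P ++ a :: b :: Q = P ++ (a :: b :: q) ++ R := by
      rw [hQ, List.append_assoc]
      rfl
    have e2 : P ++ b :: a :: Q = P ++ (b :: a :: q) ++ R := by
      rw [hQ, List.append_assoc]
      rfl
    rw [e1, e2]
    exact h4
  exact θ.trans hu (θ.trans h3 (θ.symm hv))

end Pool.Agent.MWK.H49
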