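import Pool.Agent.MWK.Stmts

/-!
# Row LVD of block MWK (helper49)
-/

namespace Pool.Agent.MWK.H49

open Pool.Agent.Helper14_MV Pool.Agent.Helper2_MV

/-- row LVD -/
theorem lvd (hD : DerStmt) (hI : InvStmt) : LvdStmt := by
  intro θ hθ m u v j hj hB hA
  match j, hj, hB, hA with
  | 0, _, hB, hA => exact hD (FF m) (fun u v => (hI m u v).1) θ hθ hB u v hA
  | 1, _, hB, hA => exact hD (FB m) (fun u v => (hI m u v).2.1) θ hθ hB u v hA
  | e + 2, hj, hB, hA =>
    exact hD (FD m (e + 1)) (fun u v => (hI m u v).2.2 (e + 1) (by omega)) θ hθ hB u v hA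

end Pool.Agent.MWK.H49
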