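import Pool.Agent.MWK.StmtsN

/-!
# Row GAM of block MWK (helper49)
-/

namespace Pool.Agent.MWK.H49

open Pool.Agent.Helper14_MV Pool.Agent.Helper2_MV Pool.Agent.MWF

/-- row GAM -/
theorem gam (h1 : Nr0Stmt) (h2 : Nd1Stmt) : GamStmt := by
  intro β hM hA hg hn
  have hG : Gw β := ⟨hA, hg, hn⟩
  have h3 := h1 β hM hG
  exact ⟨h3, h2 β hM hG h3⟩

end Pool.Agent.MWK.H49
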