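import Pool.Agent.MWK.StmtsN

/-!
# Row NR0 of block MWK (helper49)
-/

namespace Pool.Agent.MWK.H49

open Pool.Agent.Helper14_MV Pool.Agent.Helper2_MV
open Pool.Agent.MWF (Ap gaml le_gaml gaml_keep RR_gaml pent)

/-- row NR0 -/
theorem nr0 (hAA : NaaStmt) (hKA : NkaStmt) (hPB : NpbStmt) (hTB : NtbStmt) : Nr0Stmt := by
  intro β hM hG
  by_contra hn
  have hA := hAA β hM hG.ap hn
  have hB := hPB β hG hA
  have hβσ : β ≤ gaml PA := le_gaml hA
  have hβτ : β ≤ gaml PB := le_gaml hB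
  let P : List ℕ → Prop := fun w => PB w ∧ RR (gaml PA) w [0, 2, 2, 1, 0]
  have hβP : β ≤ gaml P := le_gaml (fun a b hab hP =>
    ⟨hB a b hab hP.1, (gaml PA).trans ((gaml PA).symm (hβσ _ _ hab)) hP.2⟩)
  have hβρ : β ≤ FIC.inf (gaml P) (gaml PB) := FIC.le_inf hβP hβτ
  have hρτ : FIC.inf (gaml P) (gaml PB) ≤ gaml PB := FIC.inf_le_right _ _
  have c1 : RR (gaml PA) [0, 2, 2, 1, 0] [0, 0, 2, 2, 1, 0] :=
    RR.sub (fun c => if c = 1 then [2, 2, 1] else [c]) hKA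
  have c3 : RR (gaml PA) [2, 2, 0, 0, 1, 0] [2, 2, 0, 1, 0] :=
    (RR.refl [2, 2]).append (RR.symm hKA)
  have c2 : RR (FIC.inf (gaml P) (gaml PB)) [0, 0, 2, 2, 1, 0] [2, 2, 0, 0, 1, 0] := by
    constructor
    · refine RR_gaml (fun f p q => ⟨fun h => ?_, fun h => ?_⟩)
      · have e := hTB.2 f p q (Or.inl h.1)
        rw [← e]
        exact h
      · have e := hTB.2 f p q (Or.inr h.1)
        rw [e]
        exact h
    · refine RR_gaml (fun f p q => ⟨fun h => ?_, fun h => ?_⟩)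
      · have e := hTB.2 f p q (Or.inl h)
        rw [← e]
        exact h
      · have e := hTB.2 f p q (Or.inr h)
        rw [e]
        exact h
  have hs : RR (FIC.sup (FIC.inf (gaml P) (gaml PB)) (gaml PA)) [0, 2, 2, 1, 0]
      [2, 2, 0, 1, 0] :=
    (FIC.sup _ _).trans (FIC.le_sup_right _ _ _ _ c1)
      ((FIC.sup _ _).trans (FIC.le_sup_left _ _ _ _ c2) (FIC.le_sup_right _ _ _ _ c3))
  have hu : P [0, 2, 2, 1, 0] := by
    refine ⟨⟨by simp, ⟨1, le_rfl, by decide⟩, ⟨2, le_rfl, by decide⟩⟩, RR.refl _⟩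
  have hv : P [2, 2, 0, 1, 0] := pent hM hβρ hβσ hβτ hρτ (P := P)
    (fun a b h hP => (gaml_keep h.1).1 hP)
    (fun a b h1 h2 hP => ⟨(gaml_keep h2).1 hP.1, (gaml PA).trans ((gaml PA).symm h1) hP.2⟩)
    hs hTB.1 hu
  have h1 : RR (gaml PA) [0, 0, 1, 1, 1, 1] [1, 1, 0, 0, 1, 1] :=
    RR.sub (fun c => if c = 0 then [1, 1] else if c = 2 then [0] else []) hv.2
  have h2 : PA [0, 0, 1, 1, 1, 1] := ⟨2, 4, le_rfl, by norm_num, by decide⟩
  obtain ⟨i, j, hi, hj, he⟩ := (gaml_keep h1).1 h2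
  obtain ⟨i', rfl⟩ : ∃ i', i = i' + 1 := ⟨i - 1, by omega⟩
  rw [List.replicate_succ, List.cons_append] at he
  simp at he

end Pool.Agent.MWK.H49
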